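import Pool.Agent.H99.TW.TMain

/-!
# Exact Lagrangians with coherent fibres are images of the zero section

Partial answer to Q1 of MP_3dbb84_gt (helper99, helper84, helper2 and the module owners).

`N ⊂ ℝ^m` is a closed connected manifold of dimension `n` (`ClosedMfd n N ⊥`: closed, bounded, embedded),
`T*N = TN N ⊂ ℝ^m × ℝ^m`, `S ⊂ T*N` is a closed exact Lagrangian submanifold with a primitive `f` of the
Liouville form (`ExactLag n N ⊥ S f`). `B` is a continuous field of symmetric bilinear forms
`(u, u') ↦ ⟪B q u, u'⟫`, of any signature. A fibre vector of `S` over `q` (`FibreVec`) is a difference of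
two points of `S` over `q` or a vertical tangent vector of `S` at a point over `q`. Hypothesis
(`Coherent B S`): for any three nonzero fibre vectors `u`, `u'`, `u''` over the same point the product of
the three values of the form on the pairs is positive; in other words, the relation `0 < ⟪B q u, u'⟫` is an
equivalence relation with at most two classes. Conclusion: a symplectic diffeomorphism of `T*N` maps the
zero section onto `S`. The form `main_D` of the theorem (fields of double cones) is equivalent.
-/

set_option autoImplicit false

open scoped ContDiff Topology RealInnerProductSpace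
open Set

namespace Pool.Agent.Results.MP_3dbb84_gt.CoherentFibres

open Pool.Agent.H57.NL Pool.Agent.H99.TW

theorem result {m n : ℕ} {N : Set (E m)} (hN : ClosedMfd n N ⊥) {B : E m → (E m →L[ℝ] E m)}
    (hB : Continuous B) (hBs : ∀ x u w, ⟪B x u, w⟫ = ⟪B x w, u⟫) {S : Set (E m × E m)}
    {f : E m × E m → ℝ} (hL : ExactLag n N ⊥ S f) (hS : Coherent B S) :
    ∃ ψ ψ' : E m × E m → E m × E m, SympDiffeo N ⊥ ψ ψ' ∧
      ψ '' {z | z.1 ∈ N ∧ z.2 = 0} = S :=
  main_B hN hB hBs hL hS

end Pool.Agent.Results.MP_3dbb84_gt.CoherentFibres
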