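import Pool.Agent.H86.CQ.CMain

/-!
MP_3dbb84_gt (Arnold's conjecture on exact Lagrangians in cotangent bundles), partial result.

`N` is a closed connected embedded submanifold of `ℝ^m` with a function `F` of one of two kinds:
a real transnormal function, normalised so that its gradient `g` on `N` satisfies `|g|² = 1 - F²`,
whose regular levels are connected, or a submersion `F = exp (i θ)` to the unit circle, `g = grad θ`,
with connected fibres. Example: a compact connected group `G` of linear isometries of `ℝ^m` acts on
`N` with orbit space an interval or a circle; then there is such an `F` whose levels are the orbits of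
`G` (in the case of an interval, of length `π` after scaling, `F` is the cosine of the distance to
one of the two nonprincipal orbits).

A closed exact Lagrangian submanifold `S` of `T*N` which is invariant under `G`, or, more generally,
all of whose covectors are multiples of `g` or limits of such multiples, is the image of the zero
section under a compactly supported Hamiltonian isotopy. The isotopy stays in this class, and
it commutes with all linear isometries of `ℝ^m` which preserve `N` and `F`, in particular with `G`.
-/

set_option autoImplicit false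

open scoped ContDiff Topology RealInnerProductSpace
open Set Filter

namespace Pool.Agent.Results.MP_3dbb84_gt.CohomogeneityOne

open Pool.Agent.H57.NL Pool.Agent.H2.TG Pool.Agent.H2.TI Pool.Agent.H73.CO Pool.Agent.H86.CQ

theorem result {m n : ℕ} {N : Set (E m)} {F : E m → ℂ} {g : E m → E m} {S : Set (E m × E m)}
    {f : E m × E m → ℝ} (hN : ClosedMfd n N ⊥) (hF : OrbitMap N F g)
    (hL : ExactLag n N ⊥ S f)
    (hS : S ⊆ MF N g ∨ ∃ G : Set (E m → E m), OrbitsOf G N F ∧
      ∀ b ∈ G, ∀ z ∈ S, (b z.1, b z.2) ∈ S) :
    ∃ (Ψ Ψ' : ℝ → E m × E m → E m × E m) (H : ℝ → E m × E m → ℝ),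
      HamIso N Ψ Ψ' H ∧ Ψ 1 '' {z | z.1 ∈ N ∧ z.2 = 0} = S ∧
      (∀ s ∈ Icc (0 : ℝ) 1, Ψ s '' {z | z.1 ∈ N ∧ z.2 = 0} ⊆ MF N g) ∧
      ∀ b : E m → E m, Orth b → (∀ q, b q ∈ N ↔ q ∈ N) → (∀ q ∈ N, F (b q) = F q) →
        ∀ s, ∀ z ∈ TN N, Ψ s (b z.1, b z.2) = (b (Ψ s z).1, b (Ψ s z).2) :=
  main_both hN hF hL hS

end Pool.Agent.Results.MP_3dbb84_gt.CohomogeneityOne
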