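import Pool.Agent.H84.CK.Main

/-!
# Exact Lagrangians whose fibres are chains are Hamiltonian isotopic to the zero section

Partial answer to Q1 of MP_3dbb84_gt (helper2, helper57, helper11, helper84 and the module owners).

`N ⊂ ℝ^m` is a closed connected manifold of dimension `n` (`ClosedMfd n N ⊥`: closed, bounded, embedded),
`T*N = TN N ⊂ ℝ^m × ℝ^m`, `S ⊂ T*N` is a closed exact Lagrangian submanifold with a primitive `f` of the
Liouville form (`ExactLag n N ⊥ S f`), and `K ⊂ T*N` is a closed field of closed convex cones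
`K_q ⊂ T*_q N` without lines (`ConeField N K`), for example the field of causal cones of a time-oriented
Lorentz metric. Hypothesis (`Chains K S`): in each fibre any two points `p`, `p'` of `S` are comparable,
`p' - p ∈ K_q` or `p - p' ∈ K_q`, and vertical tangent vectors of `S` lie in `K` or `-K`. Conclusion: there
is a compactly supported Hamiltonian isotopy `Ψ` of `T*N` (`HamIso`), generated by `H`, such that `Ψ 1` maps
the zero section onto `S`, and a cone field `K'` containing `K` such that for all `s` in `[0, 1]` the image of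
the zero section under `Ψ s` satisfies `Chains K'`.
-/

set_option autoImplicit false

open scoped ContDiff Topology RealInnerProductSpace
open Set

namespace Pool.Agent.Results.MP_3dbb84_gt.HamiltonianIsotopy

open Pool.Agent.H57.NL Pool.Agent.H2.TI Pool.Agent.H84.CK

theorem result {m n : ℕ} {N : Set (E m)} (hN : ClosedMfd n N ⊥) {K : Set (E m × E m)}
    (hK : ConeField N K) {S : Set (E m × E m)} {f : E m × E m → ℝ} (hL : ExactLag n N ⊥ S f)
    (hS : Chains K S) :
    ∃ (Ψ Ψ' : ℝ → E m × E m → E m × E m) (H : ℝ → E m × E m → ℝ), HamIso N Ψ Ψ' H ∧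
      Ψ 1 '' {z | z.1 ∈ N ∧ z.2 = 0} = S ∧
      ∃ K' : Set (E m × E m), ConeField N K' ∧ K ⊆ K' ∧
        ∀ s ∈ Icc (0 : ℝ) 1, Chains K' (Ψ s '' {z | z.1 ∈ N ∧ z.2 = 0}) :=
  chains_iso hN hK hL hS

end Pool.Agent.Results.MP_3dbb84_gt.HamiltonianIsotopy
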