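import Pool.Agent.H16.EL.Pub
import Pool.Agent.H16.EL.Bridge

/-!
# MP_3dbb84_gt: exact Lagrangians with topologically transitive symmetries

A closed exact Lagrangian submanifold of `T*N` that is mapped onto itself by a family of
diffeomorphisms of `T*N` preserving the Liouville form (cotangent lifts), whose induced action on
`N` is topologically transitive, is the zero section.
-/

open scoped Manifold ContDiff Topology
open Bundle Set

namespace Pool.Agent.Results.MP_3dbb84_gt.TransitiveLifts

open Pool.Agent.H16.EL

theorem result {n : ℕ}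
    {N : Type*} [TopologicalSpace N] [ChartedSpace (Rn n) N] [IsManifold (IRn n) ∞ N]
    [T2Space N] [ConnectedSpace N]
    {L : Type*} [TopologicalSpace L] [ChartedSpace (Rn n) L] [IsManifold (IRn n) ∞ L]
    [CompactSpace L] [ConnectedSpace L]
    (j : L → TStar n N) (hj : ExactLag j)
    (S : Set ((N ≃ₜ N) × Diffeomorph (IRT n) (IRT n) (TStar n N) (TStar n N) ∞))
    (hlift : ∀ s ∈ S, LiftOf s.1 s.2)
    (hinv : ∀ s ∈ S, s.2 '' range j = range j)
    (htrans : ∀ A : Set N, IsClosed A → (∀ s ∈ S, s.1 '' A = A) → (interior A).Nonempty →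
      A = univ) :
    range j = zeroSection n N :=
  transitive_pub j hj S hlift hinv htrans

end Pool.Agent.Results.MP_3dbb84_gt.TransitiveLifts
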